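import Pool.Agent.H88.CM.Targets

/-!
Module ITAS: bounds for the compositions.
-/

set_option autoImplicit false

open Set Function Topology Metric Filter
open scoped Manifold
open Pool.Agent.H88.CL Pool.Agent.H88.CM

namespace Pool.Agent.H30.CM

theorem lip_of {d : ℕ} {L : ℝ} {F : E d → E d} (hF : ContDiff ℝ 2 F)
    (hb : ∀ x, ‖fderiv ℝ F x‖ ≤ L) (x y : E d) : ‖F x - F y‖ ≤ L * ‖x - y‖ :=
  (convex_univ : Convex ℝ (Set.univ : Set (E d))).norm_image_sub_le_of_norm_fderiv_le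
    (𝕜 := ℝ) (fun z _ => (hF.differentiable (by norm_num)) z) (fun z _ => hb z)
    (Set.mem_univ y) (Set.mem_univ x)

theorem Cmp_succ {d : ℕ} (Φ : ℕ → E d → E d) (l : ℕ) : Cmp Φ (l + 1) = Φ l ∘ Cmp Φ l := rfl

theorem pf_ITAS : T_ITAS := by
  intro d L Φ Φ' hC l
  have hL0 : 0 ≤ L := by linarith [hC.two]
  induction l with
  | zero =>
    refine ⟨contDiff_id, fun x => ?_, fun x y => ?_, fun x y => ?_, surjective_id⟩
    · have e : Cmp Φ 0 = id := rfl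
      rw [e, pow_zero, fderiv_id]
      exact ContinuousLinearMap.norm_id_le
    · simp [Cmp]
    · simp [Cmp]
  | succ l ih =>
    obtain ⟨h1, h2, h3, h4, h5⟩ := ih
    have hc : ContDiff ℝ 2 (Φ l ∘ Cmp Φ l) := (hC.c2 l).comp h1
    rw [Cmp_succ]
    refine ⟨hc, fun x => ?_, fun x y => ?_, fun x y => ?_, ?_⟩
    · rw [fderiv_comp x (((hC.c2 l).differentiable (by norm_num)) _)
        ((h1.differentiable (by norm_num)) x), pow_succ']
      exact (ContinuousLinearMap.opNorm_comp_le _ _).trans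
        (mul_le_mul (hC.b _ _) (h2 x) (norm_nonneg _) hL0)
    · calc ‖(Φ l ∘ Cmp Φ l) x - (Φ l ∘ Cmp Φ l) y‖ ≤ L * ‖Cmp Φ l x - Cmp Φ l y‖ :=
            lip_of (hC.c2 l) (hC.b l) _ _
        _ ≤ L * (L ^ l * ‖x - y‖) := mul_le_mul_of_nonneg_left (h3 x y) hL0
        _ = L ^ (l + 1) * ‖x - y‖ := by ring
    · have h5 : ‖Cmp Φ l x - Cmp Φ l y‖ ≤ L * ‖(Φ l ∘ Cmp Φ l) x - (Φ l ∘ Cmp Φ l) y‖ := by
        have h6 := lip_of (hC.c2' l) (hC.b' l) (Φ l (Cmp Φ l x)) (Φ l (Cmp Φ l y))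
        rw [hC.li, hC.li] at h6
        exact h6
      calc ‖x - y‖ ≤ L ^ l * ‖Cmp Φ l x - Cmp Φ l y‖ := h4 x y
        _ ≤ L ^ l * (L * ‖(Φ l ∘ Cmp Φ l) x - (Φ l ∘ Cmp Φ l) y‖) :=
          mul_le_mul_of_nonneg_left h5 (pow_nonneg hL0 l)
        _ = L ^ (l + 1) * ‖(Φ l ∘ Cmp Φ l) x - (Φ l ∘ Cmp Φ l) y‖ := by ring
    · exact Surjective.comp (fun y => ⟨Φ' l y, hC.ri l y⟩) h5

end Pool.Agent.H30.CM
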