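import Pool.Agent.H88.CM.Targets

/-! Closing lemma on compact manifolds, row ITBS: the inverse of the derivative of a
composition. -/

set_option autoImplicit false

open Set Function Topology Metric Filter
open scoped Manifold
open Pool.Agent.H88.CL Pool.Agent.H88.CM

namespace Pool.Agent.H30.CM

theorem pf_ITBS (h : T_ITAS) : T_ITBS := by
  intro d L Φ Φ' hC l b
  have hL0 : 0 ≤ L := by linarith [hC.two]
  induction l with
  | zero =>
    refine ⟨ContinuousLinearMap.id ℝ (E d), ?_, fun x => ?_, fun x => ?_⟩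
    · rw [pow_zero]
      exact ContinuousLinearMap.norm_id_le
    · have e : Cmp Φ 0 = id := rfl
      rw [e, fderiv_id]
      rfl
    · have e : Cmp Φ 0 = id := rfl
      rw [e, fderiv_id]
      rfl
  | succ l ih =>
    obtain ⟨A', h1, h2, h3⟩ := ih
    have hF : Differentiable ℝ (Φ l) := (hC.c2 l).differentiable (by norm_num)
    have hF' : Differentiable ℝ (Φ' l) := (hC.c2' l).differentiable (by norm_num)
    have hG : Differentiable ℝ (Cmp Φ l) := (h d L Φ Φ' hC l).1.differentiable (by norm_num)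
    have e1 : Φ' l ∘ Φ l = id := funext fun x => hC.li l x
    have e2 : Φ l ∘ Φ' l = id := funext fun x => hC.ri l x
    have k1 : (fderiv ℝ (Φ' l) (Φ l (Cmp Φ l b))).comp (fderiv ℝ (Φ l) (Cmp Φ l b)) =
        ContinuousLinearMap.id ℝ _ := by
      rw [← fderiv_comp (Cmp Φ l b) (hF' _) (hF _), e1, fderiv_id]
    have k2 : (fderiv ℝ (Φ l) (Cmp Φ l b)).comp (fderiv ℝ (Φ' l) (Φ l (Cmp Φ l b))) =
        ContinuousLinearMap.id ℝ _ := by
      have h4 := fderiv_comp (Φ l (Cmp Φ l b)) (hF (Φ' l (Φ l (Cmp Φ l b)))) (hF' _)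
      rw [hC.li] at h4
      rw [← h4, e2, fderiv_id]
    have k3 : fderiv ℝ (Cmp Φ (l + 1)) b =
        (fderiv ℝ (Φ l) (Cmp Φ l b)).comp (fderiv ℝ (Cmp Φ l) b) :=
      fderiv_comp b (hF _) (hG _)
    refine ⟨A'.comp (fderiv ℝ (Φ' l) (Φ l (Cmp Φ l b))), ?_, fun x => ?_, fun x => ?_⟩
    · rw [pow_succ]
      exact (ContinuousLinearMap.opNorm_comp_le _ _).trans
        (mul_le_mul h1 (hC.b' _ _) (norm_nonneg _) (pow_nonneg hL0 l))
    · rw [k3]
      have h5 := DFunLike.congr_fun k1 (fderiv ℝ (Cmp Φ l) b x)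
      simp only [ContinuousLinearMap.comp_apply, ContinuousLinearMap.id_apply] at h5 ⊢
      rw [h5, h2]
    · rw [k3]
      have h5 := DFunLike.congr_fun k2 x
      simp only [ContinuousLinearMap.comp_apply, ContinuousLinearMap.id_apply] at h5 ⊢
      rw [h3, h5]

end Pool.Agent.H30.CM
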